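import Pool.Agent.W516.KU.Defs

set_option autoImplicit false

/-!
# Project KU (MP_77d3f5_ag): from the complex numbers to the real numbers
-/

namespace Pool.Agent.W839.KU

open TensorProduct Module
open Pool.Agent.W516.KU

variable {T : Type} [AddCommGroup T] [Module ℝ T]

/-- the real part -/
noncomputable def reT : ℂ ⊗[ℝ] T →ₗ[ℝ] T :=
  TensorProduct.lift ((LinearMap.lsmul ℝ T).comp Complex.reLm)

/-- the imaginary part -/
noncomputable def imT : ℂ ⊗[ℝ] T →ₗ[ℝ] T :=
  TensorProduct.lift ((LinearMap.lsmul ℝ T).comp Complex.imLm)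

theorem reT_tmul (z : ℂ) (t : T) : reT (z ⊗ₜ[ℝ] t) = z.re • t := by
  unfold reT
  rw [TensorProduct.lift.tmul]
  rfl

theorem imT_tmul (z : ℂ) (t : T) : imT (z ⊗ₜ[ℝ] t) = z.im • t := by
  unfold imT
  rw [TensorProduct.lift.tmul]
  rfl

theorem T_DESC : S_DESC := by
  intro T _ _ _ J S hJ hU
  have hJJ : ∀ t, J (J t) = -t := fun t => by
    have := LinearMap.congr_fun hJ t
    simpa using this
  refine ⟨fun U hUS => ?_, fun P hP => ?_⟩
  · have hst : ∀ x ∈ S, ∀ u ∈ U.baseChange ℂ, x.baseChange ℂ u ∈ U.baseChange ℂ := by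
      intro x hx u hu
      rw [Submodule.baseChange_eq_span] at hu ⊢
      induction hu using Submodule.span_induction with
      | mem v hv =>
        obtain ⟨w, hw, rfl⟩ := hv
        refine Submodule.subset_span ⟨x w, hUS x hx w hw, ?_⟩
        simp
      | zero => rw [map_zero]; exact Submodule.zero_mem _
      | add a b _ _ ha hb => rw [map_add]; exact Submodule.add_mem _ ha hb
      | smul c a _ ha => rw [map_smul]; exact Submodule.smul_mem _ c ha
    rcases hU (U.baseChange ℂ) hst with h | h | h | h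
    · left
      rw [eq_bot_iff]
      intro u hu
      have h1 : (1 : ℂ) ⊗ₜ[ℝ] u ∈ U.baseChange ℂ := Submodule.tmul_mem_baseChange_of_mem 1 hu
      rw [h, Submodule.mem_bot] at h1
      have h2 := reT_tmul (1 : ℂ) u
      rw [h1, map_zero] at h2
      simpa using h2.symm
    · right
      rw [eq_top_iff]
      intro t _
      have h1 : (1 : ℂ) ⊗ₜ[ℝ] t ∈ U.baseChange ℂ := h ▸ Submodule.mem_top
      have h2 : ∀ z ∈ U.baseChange ℂ, (U.mkQ).baseChange ℂ z = 0 := by
        intro z hz
        rw [Submodule.baseChange_eq_span] at hz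
        induction hz using Submodule.span_induction with
        | mem v hv =>
          obtain ⟨w, hw, rfl⟩ := hv
          have h3 : U.mkQ w = 0 := (Submodule.Quotient.mk_eq_zero U).2 hw
          show (U.mkQ).baseChange ℂ ((1 : ℂ) ⊗ₜ[ℝ] w) = 0
          rw [LinearMap.baseChange_tmul, h3, TensorProduct.tmul_zero]
        | zero => rw [map_zero]
        | add a b _ _ ha hb => rw [map_add, ha, hb, add_zero]
        | smul c a _ ha => rw [map_smul, ha, smul_zero]
      have h3 := h2 _ h1
      rw [LinearMap.baseChange_tmul] at h3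
      have h4 := reT_tmul (1 : ℂ) (U.mkQ t)
      rw [h3, map_zero, Complex.one_re, one_smul] at h4
      exact (Submodule.Quotient.mk_eq_zero U).1 h4.symm
    · left
      rw [eq_bot_iff]
      intro u hu
      have h1 : (1 : ℂ) ⊗ₜ[ℝ] u ∈ U.baseChange ℂ := Submodule.tmul_mem_baseChange_of_mem 1 hu
      rw [h, LinearMap.mem_ker, LinearMap.sub_apply, sub_eq_zero, LinearMap.baseChange_tmul,
        LinearMap.smul_apply, End.one_apply, TensorProduct.smul_tmul'] at h1
      have h2 := congrArg imT h1
      rw [imT_tmul, imT_tmul] at h2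
      simpa using h2.symm
    · left
      rw [eq_bot_iff]
      intro u hu
      have h1 : (1 : ℂ) ⊗ₜ[ℝ] u ∈ U.baseChange ℂ := Submodule.tmul_mem_baseChange_of_mem 1 hu
      rw [h, LinearMap.mem_ker, LinearMap.add_apply, LinearMap.baseChange_tmul,
        LinearMap.smul_apply, End.one_apply, TensorProduct.smul_tmul'] at h1
      have h2 := congrArg imT h1
      rw [map_add, imT_tmul, imT_tmul, map_zero] at h2
      simpa using h2
  · rcases subsingleton_or_nontrivial T with hT | hT
    · exact ⟨0, 0, LinearMap.ext fun t => Subsingleton.elim _ _⟩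
    have hnt : Nontrivial (ℂ ⊗[ℝ] T) := by
      obtain ⟨t, ht⟩ := exists_ne (0 : T)
      refine ⟨(1 : ℂ) ⊗ₜ[ℝ] t, 0, fun h => ht ?_⟩
      have h2 := reT_tmul (1 : ℂ) t
      rw [h, map_zero] at h2
      simpa using h2.symm
    obtain ⟨a, ha⟩ := Module.End.exists_eigenvalue (P.baseChange ℂ)
    have hK : ∀ x ∈ S, ∀ u ∈ LinearMap.ker (P.baseChange ℂ - a • (1 : Module.End ℂ (ℂ ⊗[ℝ] T))),
        x.baseChange ℂ u ∈ LinearMap.ker (P.baseChange ℂ - a • (1 : Module.End ℂ (ℂ ⊗[ℝ] T))) := by
      intro x hx u hu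
      rw [LinearMap.mem_ker, LinearMap.sub_apply, sub_eq_zero] at hu ⊢
      have hcomm : P.baseChange ℂ (x.baseChange ℂ u) = x.baseChange ℂ (P.baseChange ℂ u) := by
        rw [← LinearMap.comp_apply, ← LinearMap.comp_apply, ← LinearMap.baseChange_comp,
          ← LinearMap.baseChange_comp]
        have := hP x hx
        rw [show P ∘ₗ x = x ∘ₗ P from this.symm]
      rw [hcomm, hu, LinearMap.smul_apply, LinearMap.smul_apply, End.one_apply, End.one_apply,
        map_smul]
    have hmem : ∀ z : ℂ ⊗[ℝ] T, z ∈ LinearMap.ker (P.baseChange ℂ -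
        a • (1 : Module.End ℂ (ℂ ⊗[ℝ] T))) ↔ P.baseChange ℂ z = a • z := by
      intro z
      rw [LinearMap.mem_ker, LinearMap.sub_apply, sub_eq_zero]
      rfl
    rcases hU _ hK with h | h | h | h
    · exfalso
      obtain ⟨v, hv⟩ := ha.exists_hasEigenvector
      have h1 : v ∈ LinearMap.ker (P.baseChange ℂ - a • (1 : Module.End ℂ (ℂ ⊗[ℝ] T))) :=
        (hmem v).2 hv.apply_eq_smul
      rw [h, Submodule.mem_bot] at h1
      exact hv.2 h1
    · refine ⟨a.re, 0, LinearMap.ext fun t => ?_⟩
      have h1 := (hmem ((1 : ℂ) ⊗ₜ[ℝ] t)).1 (h ▸ Submodule.mem_top)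
      rw [LinearMap.baseChange_tmul, TensorProduct.smul_tmul'] at h1
      have h2 := congrArg reT h1
      rw [reT_tmul, reT_tmul] at h2
      simpa using h2
    · refine ⟨a.re, a.im, LinearMap.ext fun t => ?_⟩
      have h0 : (1 : ℂ) ⊗ₜ[ℝ] t - Complex.I ⊗ₜ[ℝ] J t ∈
          LinearMap.ker (P.baseChange ℂ - a • (1 : Module.End ℂ (ℂ ⊗[ℝ] T))) := by
        rw [h, LinearMap.mem_ker, LinearMap.sub_apply, sub_eq_zero, map_sub,
          LinearMap.baseChange_tmul, LinearMap.baseChange_tmul, hJJ, LinearMap.smul_apply,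
          End.one_apply, smul_sub, TensorProduct.smul_tmul', TensorProduct.smul_tmul',
          smul_eq_mul, smul_eq_mul, Complex.I_mul_I, mul_one, TensorProduct.neg_tmul,
          TensorProduct.tmul_neg]
        abel
      have h1 := (hmem _).1 h0
      rw [map_sub, LinearMap.baseChange_tmul, LinearMap.baseChange_tmul, smul_sub,
        TensorProduct.smul_tmul', TensorProduct.smul_tmul'] at h1
      have h2 := congrArg reT h1
      rw [map_sub, map_sub, reT_tmul, reT_tmul, reT_tmul, reT_tmul] at h2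
      simpa using h2
    · refine ⟨a.re, -a.im, LinearMap.ext fun t => ?_⟩
      have h0 : (1 : ℂ) ⊗ₜ[ℝ] t + Complex.I ⊗ₜ[ℝ] J t ∈
          LinearMap.ker (P.baseChange ℂ - a • (1 : Module.End ℂ (ℂ ⊗[ℝ] T))) := by
        rw [h, LinearMap.mem_ker, LinearMap.add_apply, map_add,
          LinearMap.baseChange_tmul, LinearMap.baseChange_tmul, hJJ, LinearMap.smul_apply,
          End.one_apply, smul_add, TensorProduct.smul_tmul', TensorProduct.smul_tmul',
          smul_eq_mul, smul_eq_mul, Complex.I_mul_I, mul_one, TensorProduct.neg_tmul,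
          TensorProduct.tmul_neg]
        abel
      have h1 := (hmem _).1 h0
      rw [map_add, LinearMap.baseChange_tmul, LinearMap.baseChange_tmul, smul_add,
        TensorProduct.smul_tmul', TensorProduct.smul_tmul'] at h1
      have h2 := congrArg reT h1
      rw [map_add, map_add, reT_tmul, reT_tmul, reT_tmul, reT_tmul] at h2
      simpa using h2

end Pool.Agent.W839.KU
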